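import Pool.Agent.Helper71.CK.C1.D0
import Pool.Agent.Helper71.CK.C1.D1
import Pool.Agent.Helper71.CK.C1.D2

/-!
The certificate, `κ < 57 / 25`: the hypotheses of the assembly.
-/

set_option autoImplicit false

namespace Pool.Agent.Helper71.CK.C1

open Pool.Sos71
open Pool.Agent.Helper69.EK6 (Side)
open Pool.Agent.Helper71.CK

theorem gOk : g.Ok (1 / 20) (1 / 40) (1) (0) (-1 / 3) (1 / 2) (1 / 8) (1 / 2) (0) (1 / 2) 1 1 2 1 where
  wf := by decide +kernel
  M0 := by decide +kernel
  td0 := by decide +kernel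
  lam0 := by decide +kernel
  fi := by constructor <;> simp only [g, ct, cm, cb] <;> norm_num
  fo := by constructor <;> simp only [g, ct, cm, cb] <;> norm_num
  Ld0 := by norm_num
  Ld0' := by norm_num
  inL := by constructor <;> norm_num [abs_of_nonneg, abs_of_neg, abs_of_pos, abs_of_nonpos]
  outL := by constructor <;> norm_num [abs_of_nonneg, abs_of_neg, abs_of_pos, abs_of_nonpos]
  lIn := by constructor <;> norm_num
  lOut := by constructor <;> norm_num

theorem good0 (b : Blk) (hb : b ∈ D0.cert.blocks) : Good 2 1 1 b := by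
  simp only [D0.cert, List.mem_cons, List.not_mem_nil, or_false] at hb
  rcases hb with rfl | rfl | rfl | rfl
  · exact Good.one rfl
  · exact Good.ab rfl
  · exact Good.l rfl
  · exact Good.abl rfl

theorem good1 (b : Blk) (hb : b ∈ D1.cert.blocks) : Good 2 2 1 b := by
  simp only [D1.cert, List.mem_cons, List.not_mem_nil, or_false] at hb
  rcases hb with rfl | rfl | rfl | rfl | rfl
  · exact Good.one rfl
  · exact Good.ab rfl
  · exact Good.l rfl
  · exact Good.abl rfl
  · exact Good.d1 rfl (by decide +kernel)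

theorem good2 (b : Blk) (hb : b ∈ D2.cert.blocks) : b.mult = mOne ∨ b.mult = mCen := by
  simp only [D2.cert, List.mem_cons, List.not_mem_nil, or_false] at hb
  rcases hb with rfl | rfl | rfl | rfl
  · exact Or.inl rfl
  · exact Or.inl rfl
  · exact Or.inr rfl
  · exact Or.inr rfl

theorem hIn : Side g.s.d.c.K 1 1 g.tIn := side_of D0.ok (by norm_num) good0

theorem hOut : Side g.s.d.c.K 2 1 g.tOut := side_of D1.ok (by norm_num) good1

theorem hCen (x : Pnt) (h : 0 ≤ -2 * x.f - x.f ^ 2 - x.g ^ 2) : 0 ≤ (Ex.bp g.cen).re x :=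
  cen_of D2.ok good2 x h

theorem hk : (g.s.d.c.lam : ℝ) + g.s.d.c.c1 + (|(g.s.d.c.c1 : ℝ) - g.s.d.kb| +
    2 * |(g.s.d.c.a2 : ℝ)|) / 10 ^ 7 < 2 * (57 / 25) * g.s.d.c.M := by
  simp only [g, ct, cm, cb]
  norm_num [abs_of_nonneg, abs_of_neg, abs_of_pos, abs_of_nonpos]

end Pool.Agent.Helper71.CK.C1
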