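import Pool.Agent.Helper71.CK.C1.Data
import Pool.Agent.Helper11.CK.MData

/-!
The multiplier of the certificate: `|M| ≤ 23 / 10` on `|m + 3| ≤ 4`.
-/

set_option autoImplicit false

namespace Pool.Agent.Helper71.CK.C1

open Pool.Agent.Helper71.CK Pool.Agent.Helper11.CK
open Pool.Agent.Helper20.CK (ROk)
open Pool.Agent.Helper20.EK7 (InL OutL)
open Pool.Agent.Helper69.CK (MOk)

def mc : MChk := ⟨128, 60, 2, 128, 60, 2, 23, 10, 3, 3, 0, -1, 2, 1, 0, 1⟩

theorem mc_ok : mc.ok g.s = true := by decide +kernel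

theorem mOk {Mb : ℝ} (hMb : 23 / 10 < Mb) : ∃ (M' : ℂ → ℂ) (L' ε : ℝ), 0 < ε ∧
    MOk (g.s.Mu 1 0 (-1 / 3) (1 / 2) 0 (1 / 2)) M' Mb L' ε := by
  refine mOk_Mu (a := 1 / 2) (by constructor <;> norm_num)
    (by constructor <;> norm_num) (by decide +kernel) mc (by decide) (by decide)
    (by constructor <;> norm_num [mc]) (by constructor <;> norm_num [mc]) mc_ok ?_
  simp only [mc]
  norm_num
  linarith

end Pool.Agent.Helper71.CK.C1
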